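import Pool.Agent.Helper40.OL.Spec

/-!
# OL, part PSI: the cubes with a given top vertex are the labelled independent sets
-/

set_option autoImplicit false

namespace Pool.Agent.H62.OL

open Pool.Agent.Helper40.OL

/-- leaves from merges -/
def Lof : ℕ → List ℕ → List ℕ
  | _, [] => []
  | k, r :: R => (r - k - 1) :: Lof (k + 1) R

/-- merges from leaves -/
def Rof : ℕ → List ℕ → List ℕ
  | _, [] => []
  | k, a :: L => (a + k + 1) :: Rof (k + 1) L

abbrev Gap (R : List ℕ) : Prop := R.Pairwise (fun a b => a + 2 ≤ b)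

lemma Lof_length (R : List ℕ) : ∀ k, (Lof k R).length = R.length := by
  induction R with
  | nil => intro k; rfl
  | cons r R ih => intro k; simp [Lof, ih]

lemma Rof_length (L : List ℕ) : ∀ k, (Rof k L).length = L.length := by
  induction L with
  | nil => intro k; rfl
  | cons r R ih => intro k; simp [Rof, ih]

lemma Lof_map (R : List ℕ) : ∀ k, Gap R → (∀ r ∈ R, k + 2 ≤ r) →
    (Lof (k + 1) R).map (· + 1) = Lof k R := by
  induction R with
  | nil => intro k _ _; rfl
  | cons r R ih =>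
    intro k hg hr
    rw [Gap, List.pairwise_cons] at hg
    simp only [Lof, List.map_cons]
    rw [ih (k + 1) hg.2 (fun x hx => by
      have h1 := hg.1 x hx
      have h2 := hr r (by simp)
      omega)]
    have h2 := hr r (by simp)
    congr 1
    omega

lemma Lof_lb (R : List ℕ) : ∀ k b, Gap R → (∀ r ∈ R, b + k + 1 ≤ r) → ∀ x ∈ Lof k R, b ≤ x := by
  induction R with
  | nil => intro k b _ _ x hx; simp [Lof] at hx
  | cons r R ih =>
    intro k b hg hr x hx
    rw [Gap, List.pairwise_cons] at hg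
    have h2 := hr r (by simp)
    simp only [Lof, List.mem_cons] at hx
    rcases hx with rfl | hx
    · omega
    · exact ih (k + 1) b hg.2 (fun z hz => by have := hg.1 z hz; omega) x hx

lemma Lof_pairwise (R : List ℕ) : ∀ k, Gap R → (∀ r ∈ R, k + 1 ≤ r) → (Lof k R).Pairwise (· < ·) := by
  induction R with
  | nil => intro k _ _; simp [Lof]
  | cons r R ih =>
    intro k hg hr
    rw [Gap, List.pairwise_cons] at hg
    have h2 := hr r (by simp)
    simp only [Lof]
    rw [List.pairwise_cons]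
    refine ⟨fun x hx => ?_, ih (k + 1) hg.2 (fun z hz => by have := hg.1 z hz; omega)⟩
    have := Lof_lb R (k + 1) (r - k) hg.2 (fun z hz => by have := hg.1 z hz; omega) x hx
    omega

lemma gap_bound (R : List ℕ) : ∀ r M, Gap (r :: R) → (∀ x ∈ r :: R, x < M) →
    r + 2 * R.length < M := by
  induction R with
  | nil => intro r M _ h; simpa using h r (by simp)
  | cons r' R ih =>
    intro r M hg h
    rw [Gap, List.pairwise_cons] at hg
    have h1 := ih r' M hg.2 (fun x hx => h x (by simp [List.mem_cons] at hx ⊢; tauto))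
    have h2 := hg.1 r' (by simp)
    simp only [List.length_cons]
    omega

lemma gap_lb (R : List ℕ) (a : ℕ) (R₁ : List ℕ) : ∀ b, Gap (R₁ ++ a :: R) →
    (∀ x ∈ R₁ ++ a :: R, b ≤ x) → b + 2 * R₁.length ≤ a := by
  induction R₁ with
  | nil => intro b _ h; simpa using h a (by simp)
  | cons c R₁ ih =>
    intro b hg h
    rw [Gap, List.cons_append, List.pairwise_cons] at hg
    have h1 := h c (by simp)
    have h2 := ih (b + 2) hg.2 (fun x hx => by have := hg.1 x hx; omega)
    simp only [List.length_cons]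
    omega

lemma Lof_ub (R : List ℕ) : ∀ k n, Gap R → (∀ r ∈ R, k + 1 ≤ r) → (∀ r ∈ R, r < n + k + R.length) →
    ∀ x ∈ Lof k R, x < n := by
  induction R with
  | nil => intro k n _ _ _ x hx; simp [Lof] at hx
  | cons r R ih =>
    intro k n hg hk hr x hx
    have hb := gap_bound R r _ hg hr
    rw [Gap, List.pairwise_cons] at hg
    have h2 := hk r (by simp)
    simp only [List.length_cons] at hb hr
    simp only [Lof, List.mem_cons] at hx
    rcases hx with rfl | hx
    · omega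
    · exact ih (k + 1) n hg.2 (fun z hz => by have := hg.1 z hz; omega)
        (fun z hz => by have := hr z (by simp [hz]); omega) x hx

lemma Lof_inj (R : List ℕ) : ∀ k R', Gap R → Gap R' → (∀ r ∈ R, k + 1 ≤ r) → (∀ r ∈ R', k + 1 ≤ r) →
    Lof k R = Lof k R' → R = R' := by
  induction R with
  | nil =>
    intro k R' _ _ _ _ h
    cases R' with
    | nil => rfl
    | cons a b => simp [Lof] at h
  | cons r R ih =>
    intro k R' hg hg' hk hk' h
    cases R' with
    | nil => simp [Lof] at h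
    | cons a b =>
      simp only [Lof, List.cons.injEq] at h
      rw [Gap, List.pairwise_cons] at hg hg'
      have h2 := hk r (by simp)
      have h3 := hk' a (by simp)
      have := ih (k + 1) b hg.2 hg'.2 (fun z hz => by have := hg.1 z hz; omega)
        (fun z hz => by have := hg'.1 z hz; omega) h.2
      rw [this]
      congr 1
      omega

lemma Lof_Rof (L : List ℕ) : ∀ k, Lof k (Rof k L) = L := by
  induction L with
  | nil => intro k; rfl
  | cons a L ih => intro k; simp only [Rof, Lof, ih]; congr 1; omega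

lemma Rof_lb (L : List ℕ) : ∀ k b, L.Pairwise (· < ·) → (∀ a ∈ L, b ≤ a) → ∀ x ∈ Rof k L, b + k + 1 ≤ x := by
  induction L with
  | nil => intro k b _ _ x hx; simp [Rof] at hx
  | cons a L ih =>
    intro k b hg hr x hx
    rw [List.pairwise_cons] at hg
    have h2 := hr a (by simp)
    simp only [Rof, List.mem_cons] at hx
    rcases hx with rfl | hx
    · omega
    · have := ih (k + 1) b hg.2 (fun z hz => by have := hg.1 z hz; omega) x hx
      omega

lemma Rof_gap (L : List ℕ) : ∀ k, L.Pairwise (· < ·) → Gap (Rof k L) := by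
  induction L with
  | nil => intro k _; simp [Rof]
  | cons a L ih =>
    intro k hg
    rw [List.pairwise_cons] at hg
    simp only [Rof]
    rw [Gap, List.pairwise_cons]
    refine ⟨fun x hx => ?_, ih (k + 1) hg.2⟩
    have := Rof_lb L (k + 1) (a + 1) hg.2 (fun z hz => by have := hg.1 z hz; omega) x hx
    omega

lemma Rof_ub (L : List ℕ) : ∀ k n, L.Pairwise (· < ·) → (∀ a ∈ L, a < n) →
    ∀ x ∈ Rof k L, x < n + k + L.length := by
  induction L with
  | nil => intro k n _ _ x hx; simp [Rof] at hx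
  | cons a L ih =>
    intro k n hg hr x hx
    rw [List.pairwise_cons] at hg
    have h2 := hr a (by simp)
    simp only [Rof, List.mem_cons] at hx
    simp only [List.length_cons]
    rcases hx with rfl | hx
    · omega
    · have := ih (k + 1) n hg.2 (fun z hz => hr z (by simp [hz])) x hx
      omega

/-! ### vertices -/

variable {r : ℕ}

/-- the vertex of `w` -/
def vx (h : HY r) (n : ℕ) (w : E) (hw : w ∈ Y r n) : Vt (SY h) :=
  ⟨n, ⟨(w : E ⧸ K n), ⟨w, hw, rfl⟩⟩⟩

lemma vx_congr (h : HY r) {n n' : ℕ} {w w' : E} (hw : w ∈ Y r n) (hw' : w' ∈ Y r n') (hn : n = n')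
    (hk : w⁻¹ * w' ∈ K n) : vx h n w hw = vx h n' w' hw' := by
  subst hn
  unfold vx
  congr 1
  apply Subtype.ext
  exact QuotientGroup.eq.2 hk

lemma vx_inj (h : HY r) {n n' : ℕ} {w w' : E} (hw : w ∈ Y r n) (hw' : w' ∈ Y r n')
    (he : vx h n w hw = vx h n' w' hw') : n = n' ∧ w⁻¹ * w' ∈ K n := by
  unfold vx at he
  rw [Sigma.mk.injEq] at he
  obtain ⟨h1, h2⟩ := he
  subst h1
  refine ⟨rfl, ?_⟩
  have h3 := eq_of_heq h2
  have h4 : (w : E ⧸ K n) = (w' : E ⧸ K n) := congrArg Subtype.val h3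
  exact QuotientGroup.eq.1 h4

lemma vx_surj (h : HY r) (x : Vt (SY h)) : ∃ w, ∃ hw : w ∈ Y r x.1, x = vx h x.1 w hw := by
  obtain ⟨n, v⟩ := x
  obtain ⟨v, w, hw, hv⟩ := v
  refine ⟨w, hw, ?_⟩
  unfold vx
  congr 1
  apply Subtype.ext
  exact hv.symm

lemma sV_vx (h : HY r) (n i : ℕ) (w : E) (hw : w ∈ Y r n) (hi : i < n) :
    sV (SY h) i (vx h n w hw) = vx h (n + 1) (w * tau i) (h.sub n w hw i hi) := by
  unfold sV vx
  congr 1
  apply Subtype.ext
  show rmul h.conj n (idx n i) (w : E ⧸ K n) = ((w * tau i : E) : E ⧸ K (n + 1))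
  have e1 : idx n i = i := if_pos hi
  rw [e1]
  rfl

lemma topV_vx (h : HY r) (R : List ℕ) : ∀ (k m : ℕ) (w : E) (hw : w ∈ Y r m), Gap R →
    (∀ r ∈ R, k + 1 ≤ r) → (∀ r ∈ R, r < m + R.length) →
    ∃ hw' : w * theta R ∈ Y r (m + R.length),
      topV (SY h) k (vx h m w hw) (Lof k R) = vx h (m + R.length) (w * theta R) hw' := by
  induction R with
  | nil =>
    intro k m w hw _ _ _
    refine ⟨by simpa [theta] using hw, ?_⟩
    simp only [Lof, topV]
    exact vx_congr h _ _ (by simp) (by simp [theta, (K m).one_mem])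
  | cons a R ih =>
    intro k m w hw hg hk hr
    have hb := gap_bound R a _ hg hr
    rw [Gap, List.pairwise_cons] at hg
    have h2 := hk a (by simp)
    simp only [List.length_cons] at hb hr
    have hlt : a - 1 < m := by omega
    obtain ⟨hw', he⟩ := ih (k + 1) (m + 1) (w * tau (a - 1)) (h.sub m w hw _ hlt) hg.2
      (fun z hz => by have := hg.1 z hz; omega)
      (fun z hz => by have := hr z (by simp [hz]); omega)
    have e1 : m + 1 + R.length = m + (a :: R).length := by simp; omega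
    have e2 : w * tau (a - 1) * theta R = w * theta (a :: R) := by
      simp only [theta, mul_assoc]
    refine ⟨?_, ?_⟩
    · rw [← e1, ← e2]; exact hw'
    · simp only [Lof, topV]
      have e3 : a - k - 1 + k = a - 1 := by omega
      rw [e3, sV_vx h m (a - 1) w hw hlt, he]
      exact vx_congr h _ _ e1 (by rw [← e2, inv_mul_cancel]; exact (K (m + 1 + R.length)).one_mem)

/-! ### the map -/

section main

variable (h : HY r) (N : ℕ) (y : E) (hy : y ∈ Y r N)

open Classical in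
/-- the vertex of a labelled set -/
noncomputable def Vl (l : ℕ × ℕ → ℤ) (R : List ℕ) : Vt (SY h) :=
  if hw : y * kap l * (theta R)⁻¹ ∈ Y r (N - R.length) then vx h _ _ hw else vx h N y hy

/-- the map `Ψ` -/
noncomputable def Psi (c : List ℕ × (ℕ × ℕ → ℤ)) : Cb (SY h) := (Vl h N y hy c.2 c.1, Lof 0 c.1)

end main

lemma kap_f (l : ℕ × ℕ → ℤ) : (kap l).f = 1 := rfl

/-- admissible lists -/
def Va (r N : ℕ) (y : E) (R : List ℕ) : Prop := Gap R ∧ ∀ x ∈ R, x ∈ WW r N y

lemma mem_WW {r N : ℕ} {y : E} {x : ℕ} : x ∈ WW r N y ↔ x < N ∧ 1 ≤ x ∧ ∀ i : ℕ, i ≤ r → y.f x ≠ i := by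
  classical
  unfold WW
  simp only [Finset.mem_filter, Finset.mem_range]

lemma Va.sub {r N : ℕ} {y : E} {R R' : List ℕ} (h : Va r N y R) (hs : R'.Sublist R) : Va r N y R' :=
  ⟨h.1.sublist hs, fun x hx => h.2 x (hs.subset hx)⟩

lemma Va.rg {r N : ℕ} {y : E} {R : List ℕ} (h : Va r N y R) : ∀ x ∈ R, 1 ≤ x ∧ x < N :=
  fun x hx => ⟨(mem_WW.1 (h.2 x hx)).2.1, (mem_WW.1 (h.2 x hx)).1⟩

lemma inY (hT : S_THETA) (hY : S_Y) {N : ℕ} {y : E} (hr : 1 ≤ r) (hy : y ∈ Y r N) (k : E) (hk : k ∈ K N)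
    {R : List ℕ} (hR : Va r N y R) : y * k * (theta R)⁻¹ ∈ Y r (N - R.length) := by
  obtain ⟨-, -, h3, -, -, -, -, -, -, h10⟩ := hY r hr
  obtain ⟨t1, t2, t3, t4⟩ := hT.1 N R hR.1 hR.rg
  refine h10 _ _ _ (h3 N y hy k hk) _ t2 (fun i hi => ?_)
  obtain ⟨-, hy2⟩ := hy
  obtain ⟨x, hx, hxi⟩ := hy2 i hi
  have hxR : x ∉ R := fun hc => (mem_WW.1 (hR.2 x hc)).2.2 i hi hxi
  obtain ⟨m, hm, hm2⟩ := t4 x hx hxR
  refine ⟨m, hm, ?_⟩
  have hkf : k.f = 1 := hk.1
  simp only [E.mul_f, E.inv_f, Equiv.Perm.coe_mul, Function.comp_apply, hkf, Equiv.Perm.coe_one, id_eq]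
  rw [← hm2, Equiv.Perm.inv_def, Equiv.symm_apply_apply, hxi]

lemma kap_mem (hL : S_LABEL) {N : ℕ} {l : ℕ × ℕ → ℤ} (hl : ∀ y, y ∉ TT N → l y = 0) : kap l ∈ K N :=
  (hL.1 N _).2 ⟨l, hl, rfl⟩

lemma Vl_eq (hT : S_THETA) (hL : S_LABEL) (hY : S_Y) (h : HY r) {N : ℕ} {y : E} (hr : 1 ≤ r)
    (hy : y ∈ Y r N) {l : ℕ × ℕ → ℤ} (hl : ∀ y, y ∉ TT N → l y = 0) {R : List ℕ} (hR : Va r N y R) :
    Vl h N y hy l R = vx h _ _ (inY hT hY hr hy (kap l) (kap_mem hL hl) hR) := by
  unfold Vl
  rw [dif_pos (inY hT hY hr hy (kap l) (kap_mem hL hl) hR)]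

lemma res_supp {N : ℕ} {l : ℕ × ℕ → ℤ} (hl : ∀ y, y ∉ TT N → l y = 0) (R : List ℕ) :
    ∀ y, y ∉ TT N → res R l y = 0 := by
  intro y hy
  unfold res
  split_ifs with h1
  · exact hl y hy
  · rfl

lemma res_res (R : List ℕ) (l : ℕ × ℕ → ℤ) : res R (res R l) = res R l := by
  funext y
  unfold res
  split_ifs <;> rfl

lemma Vl_res (hT : S_THETA) (hL : S_LABEL) (hY : S_Y) (h : HY r) {N : ℕ} {y : E} (hr : 1 ≤ r)
    (hy : y ∈ Y r N) {l : ℕ × ℕ → ℤ} (hl : ∀ y, y ∉ TT N → l y = 0) {R : List ℕ} (hR : Va r N y R) :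
    Vl h N y hy (res R l) R = Vl h N y hy l R := by
  rw [Vl_eq hT hL hY h hr hy hl hR, Vl_eq hT hL hY h hr hy (res_supp hl R) hR]
  refine vx_congr h _ _ rfl ?_
  have := (hL.2 N R (res R l) l hR.1 hR.rg (res_supp hl R) hl).2 (res_res R l)
  have e : (y * kap (res R l) * (theta R)⁻¹)⁻¹ * (y * kap l * (theta R)⁻¹) =
      (kap (res R l) * (theta R)⁻¹)⁻¹ * (kap l * (theta R)⁻¹) := by group
  rw [e]
  exact this

/-! ### boundary -/

lemma lb_support (R : List ℕ) : ∀ R' ∈ (lb R).support, R'.Sublist R := by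
  classical
  induction R with
  | nil => intro R' h; simp [lb] at h
  | cons a R ih =>
    intro R' h
    simp only [lb] at h
    have h1 := Finsupp.support_sub h
    rw [Finset.mem_union] at h1
    rcases h1 with h1 | h1
    · have h2 := Finsupp.support_single_subset h1
      rw [Finset.mem_singleton] at h2
      rw [h2]
      exact List.sublist_cons_self a R
    · have h2 := Finsupp.mapDomain_support h1
      rw [Finset.mem_image] at h2
      obtain ⟨R'', h3, rfl⟩ := h2
      exact (ih R'' h3).cons_cons a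

lemma sV_Vl (hT : S_THETA) (hL : S_LABEL) (hY : S_Y) (h : HY r) {N : ℕ} {y : E} (hr : 1 ≤ r)
    (hy : y ∈ Y r N) {l : ℕ × ℕ → ℤ} (hl : ∀ y, y ∉ TT N → l y = 0) {R₁ R : List ℕ} {a : ℕ}
    (hR : Va r N y (R₁ ++ a :: R)) :
    sV (SY h) (a - R₁.length - 1) (Vl h N y hy l (R₁ ++ a :: R)) = Vl h N y hy l (R₁ ++ R) := by
  have hs : (R₁ ++ R).Sublist (R₁ ++ a :: R) := (List.sublist_cons_self a R).append_left R₁
  have hR' := hR.sub hs
  rw [Vl_eq hT hL hY h hr hy hl hR, Vl_eq hT hL hY h hr hy hl hR']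
  obtain ⟨t1, -⟩ := hT.1 N _ hR.1 hR.rg
  have hlt : a - R₁.length - 1 < N - (R₁ ++ a :: R).length := by
    have h1 : ∀ x ∈ a :: R, x < N := fun x hx => (hR.rg x (by simp at hx ⊢; tauto)).2
    have h2 := gap_bound R a N (hR.1.sublist (List.sublist_append_right R₁ (a :: R))) h1
    have h3 := gap_lb R a R₁ 1 hR.1 (fun x hx => (hR.rg x hx).1)
    simp only [List.length_append, List.length_cons] at t1 ⊢
    omega
  rw [sV_vx h _ _ _ _ hlt]
  have e1 : N - (R₁ ++ a :: R).length + 1 = N - (R₁ ++ R).length := by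
    simp only [List.length_append, List.length_cons] at t1 ⊢
    omega
  refine vx_congr h _ _ e1 ?_
  have h2 := hT.2 N a R₁ R hR.1 hR.rg
  have e2 : a - R₁.length - 1 = a - 1 - R₁.length := by omega
  rw [e2]
  have e : (y * kap l * (theta (R₁ ++ a :: R))⁻¹ * tau (a - 1 - R₁.length))⁻¹ *
      (y * kap l * (theta (R₁ ++ R))⁻¹) =
      (tau (a - 1 - R₁.length))⁻¹ * theta (R₁ ++ a :: R) * (theta (R₁ ++ R))⁻¹ := by group
  rw [e]
  exact h2

lemma fb_Vl (hT : S_THETA) (hL : S_LABEL) (hY : S_Y) (h : HY r) {N : ℕ} {y : E} (hr : 1 ≤ r)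
    (hy : y ∈ Y r N) {l : ℕ × ℕ → ℤ} (hl : ∀ y, y ∉ TT N → l y = 0) (R : List ℕ) :
    ∀ R₁ : List ℕ, Va r N y (R₁ ++ R) →
    fbRec (SY h) (Vl h N y hy l (R₁ ++ R)) (Lof R₁.length R) =
      Finsupp.mapDomain (fun R' => ((Vl h N y hy l (R₁ ++ R'), Lof R₁.length R') : Cb (SY h))) (lb R) := by
  induction R with
  | nil => intro R₁ _; simp [Lof, fbRec, lb]
  | cons a R ih =>
    intro R₁ hR
    have h1 := ih (R₁ ++ [a]) (by simpa using hR)
    simp only [List.append_assoc, List.cons_append, List.nil_append, List.length_append,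
      List.length_cons, List.length_nil, zero_add] at h1
    simp only [Lof, fbRec, lb]
    rw [h1, sV_Vl hT hL hY h hr hy hl hR]
    have e1 : (Lof (R₁.length + 1) R).map (· + 1) = Lof R₁.length R := by
      have hg : Gap (a :: R) := hR.1.sublist (List.sublist_append_right R₁ (a :: R))
      have h3 := gap_lb R a R₁ 1 hR.1 (fun x hx => (hR.rg x hx).1)
      rw [Gap, List.pairwise_cons] at hg
      exact Lof_map R _ hg.2 (fun x hx => by have := hg.1 x hx; omega)
    rw [e1]
    have e2 : ∀ (X Z : List ℕ →₀ ℤ) (f : List ℕ → Cb (SY h)),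
        Finsupp.mapDomain f (X - Z) = Finsupp.mapDomain f X - Finsupp.mapDomain f Z := by
      intro X Z f
      exact map_sub (Finsupp.mapDomain.addMonoidHom f) X Z
    rw [e2, Finsupp.mapDomain_single, ← Finsupp.mapDomain_comp, ← Finsupp.mapDomain_comp]
    rfl

/-- **Part PSI.** -/
theorem psi_thm (hT : S_THETA) (hL : S_LABEL) (hY : S_Y) : S_PSI := by
  intro r h hr N y hy
  refine ⟨Psi h N y hy, ?_, ?_, ?_, ?_⟩
  · rintro j ⟨R, l⟩ ⟨⟨hg, hW, hlen⟩, hl, hres⟩
    have hR : Va r N y R := ⟨hg, hW⟩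
    obtain ⟨t1, -⟩ := hT.1 N R hR.1 hR.rg
    have hV := Vl_eq hT hL hY h hr hy hl hR
    have e0 : N - R.length + R.length = N := by omega
    have hub : ∀ x ∈ R, x < N - R.length + 0 + R.length := fun x hx => by
      have := (hR.rg x hx).2; omega
    have hlb : ∀ x ∈ R, 0 + 1 ≤ x := fun x hx => by
      have := (hR.rg x hx).1; omega
    constructor
    · unfold Ok Psi
      simp only
      rw [hV]
      refine ⟨Lof_pairwise R 0 hg hlb, ?_, by rw [Lof_length]; exact hlen, ?_⟩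
      · intro a ha
        exact Lof_ub R 0 _ hg hlb hub a ha
      · show N - R.length + j = N
        simp only at hlen
        omega
    · show topV (SY h) 0 (Vl h N y hy l R) (Lof 0 R) = vx h N y hy
      rw [hV]
      obtain ⟨hw', he⟩ := topV_vx h R 0 _ _ (inY hT hY hr hy (kap l) (kap_mem hL hl) hR) hg hlb
        (fun x hx => by have := hub x hx; omega)
      rw [he]
      refine vx_congr h _ _ e0 ?_
      rw [e0]
      have e : (y * kap l * (theta R)⁻¹ * theta R)⁻¹ * y = (kap l)⁻¹ := by group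
      rw [e]
      exact inv_mem (kap_mem hL hl)
  · rintro j j' ⟨R, l⟩ ⟨⟨hg, hW, hlen⟩, hl, hres⟩ ⟨R', l'⟩ ⟨⟨hg', hW', hlen'⟩, hl', hres'⟩ he
    have hR : Va r N y R := ⟨hg, hW⟩
    have hR' : Va r N y R' := ⟨hg', hW'⟩
    unfold Psi at he
    rw [Prod.mk.injEq] at he
    obtain ⟨h1, h2⟩ := he
    simp only at h1 h2 hres hres' hl hl'
    have hRR := Lof_inj R 0 R' hg hg' (fun x hx => by have := (hR.rg x hx).1; omega)
      (fun x hx => by have := (hR'.rg x hx).1; omega) h2
    subst hRR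
    rw [Vl_eq hT hL hY h hr hy hl hR, Vl_eq hT hL hY h hr hy hl' hR] at h1
    obtain ⟨-, h3⟩ := vx_inj h _ _ h1
    have e : (y * kap l * (theta R)⁻¹)⁻¹ * (y * kap l' * (theta R)⁻¹) =
      (kap l * (theta R)⁻¹)⁻¹ * (kap l' * (theta R)⁻¹) := by group
    rw [e] at h3
    have h4 := (hL.2 N R l l' hg hR.rg hl hl').1 h3
    rw [hres, hres'] at h4
    rw [h4]
  · rintro j ⟨x, L⟩ ⟨hp, hlt, hlen, hN⟩ htop
    simp only at hp hlt hlen hN htop
    obtain ⟨w, hw, hx⟩ := vx_surj h x
    set n := x.1 with hn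
    have hg := Rof_gap L 0 hp
    have hub := Rof_ub L 0 n hp hlt
    have hlb := Rof_lb L 0 0 hp (fun _ _ => Nat.zero_le _)
    have hRlen : (Rof 0 L).length = j := by rw [Rof_length]; exact hlen
    have hLR := Lof_Rof L 0
    obtain ⟨hw', he⟩ := topV_vx h (Rof 0 L) 0 n w hw hg (fun z hz => by have := hlb z hz; omega)
      (fun z hz => by have := hub z hz; rw [Rof_length]; omega)
    rw [hLR] at he
    rw [hx, he] at htop
    have htop' : vx h (n + (Rof 0 L).length) (w * theta (Rof 0 L)) hw' = vx h N y hy := htop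
    obtain ⟨hn', hk⟩ := vx_inj h _ _ htop'
    rw [hn'] at hk
    have hk' := inv_mem hk
    obtain ⟨l, hl, hkl⟩ := (hL.1 N _).1 hk'
    have hwe : w = y * kap l * (theta (Rof 0 L))⁻¹ := by
      rw [← hkl]; group
    have hrg : ∀ z ∈ Rof 0 L, 1 ≤ z ∧ z < N := fun z hz => by
      have h1 := hlb z hz
      have h2 := hub z hz
      omega
    obtain ⟨t1, t2, t3, t4⟩ := hT.1 N _ hg hrg
    have hR : Va r N y (Rof 0 L) := by
      refine ⟨hg, fun z hz => mem_WW.2 ⟨(hrg z hz).2, (hrg z hz).1, fun i hi hyz => ?_⟩⟩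
      obtain ⟨-, hw2⟩ := hw
      obtain ⟨m, hm, hmi⟩ := hw2 i hi
      apply t3 z hz m
      have h5 : y.f ((theta (Rof 0 L)).f⁻¹ (m : ℝ)) = i := by
        rw [← hmi, hwe]
        simp only [E.mul_f, E.inv_f, Equiv.Perm.coe_mul, Function.comp_apply, kap_f,
          Equiv.Perm.coe_one, id_eq]
      have h6 := y.f.injective (h5.trans hyz.symm)
      rw [← h6, Equiv.Perm.inv_def, Equiv.apply_symm_apply]
    refine ⟨(Rof 0 L, res (Rof 0 L) l), ⟨⟨hg, hR.2, hRlen⟩, res_supp hl _, res_res _ _⟩, ?_⟩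
    unfold Psi
    simp only
    rw [Vl_res hT hL hY h hr hy hl hR, Vl_eq hT hL hY h hr hy hl hR, hLR, hx]
    congr 1
    refine vx_congr h _ _ (by omega) ?_
    rw [hwe]
    have e : (y * kap l * (theta (Rof 0 L))⁻¹)⁻¹ * (y * kap l * (theta (Rof 0 L))⁻¹) = 1 := by group
    rw [e]
    exact one_mem _
  · rintro j ⟨R, l⟩ ⟨⟨hg, hW, hlen⟩, hl, hres⟩
    simp only at hl
    have hR : Va r N y R := ⟨hg, hW⟩
    have h1 := fb_Vl hT hL hY h hr hy hl R [] hR
    simp only [List.nil_append, List.length_nil] at h1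
    show fbRec (SY h) (Vl h N y hy l R) (Lof 0 R) = _
    rw [h1]
    unfold lbL
    simp only
    rw [← Finsupp.mapDomain_comp]
    refine Finsupp.mapDomain_congr (fun R' hR' => ?_)
    have hs := hR.sub (lb_support R R' hR')
    simp only [Function.comp_apply, Psi]
    rw [Vl_res hT hL hY h hr hy hl hs]

end Pool.Agent.H62.OL
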